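import Pool.Agent.Q7.GK.Stm
import Pool.Agent.W289.SL.PLog

set_option autoImplicit false

/-!
# Project GK (helper7), job GQ: the logarithm of the local norm is a `p`-adic integer
-/

namespace Pool.Agent.Q176.GK.GQ

open NumberField IsDedekindDomain Filter Topology Finset
open Pool.Agent.Q7.GK
open Pool.Agent.W289.SL (IsIwasawaLog)

section Log

variable {p : ℕ} [hp : Fact p.Prime]

/-- the ring homomorphism from the `p`-adic integers to `ℂ_p` -/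
noncomputable def ii : ℤ_[p] →+* ℂ_[p] := (algebraMap ℚ_[p] ℂ_[p]).comp PadicInt.Coe.ringHom

lemma ii_apply (r : ℤ_[p]) : ii r = algebraMap ℚ_[p] ℂ_[p] (r : ℚ_[p]) := rfl

lemma ii_closed : IsClosed ((ii (p := p)).range : Set ℂ_[p]) := by
  have h : Continuous (ii (p := p)) := by
    have h1 : Continuous (algebraMap ℚ_[p] ℂ_[p]) := (algebraMap_isometry ℚ_[p] ℂ_[p]).continuous
    exact h1.comp continuous_subtype_val
  rw [RingHom.coe_range]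
  exact (isCompact_range h).isClosed

lemma mem_of_norm {x : ℚ_[p]} (hx : ‖x‖ ≤ 1) : algebraMap ℚ_[p] ℂ_[p] x ∈ (ii (p := p)).range :=
  ⟨⟨x, hx⟩, rfl⟩

lemma natCast_norm (n : ℕ) (hn : n ≠ 0) : 1 ≤ ‖(n : ℚ_[p])‖ * n := by
  have h := Pool.Agent.W289.SL.one_le_norm_natCast (p := p) n hn
  rwa [Pool.Agent.W289.SL.norm_natCast_eq] at h

/-- the terms of the series -/
lemma term_norm {z : ℚ_[p]} (hz : ‖z‖ < 1) (n : ℕ) : ‖(-1 : ℚ_[p]) ^ n * z ^ (n + 1) / ((n : ℚ_[p]) + 1)‖ ≤ 1 := by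
  have hp2 : 1 < p := hp.out.one_lt
  have hp0 : (0 : ℝ) < p := by exact_mod_cast hp.out.pos
  have hz1 : ‖z‖ ≤ (p : ℝ)⁻¹ := by
    have h := (Padic.norm_le_pow_iff_norm_lt_pow_add_one z (-1)).2 (by simpa using hz)
    rwa [zpow_neg_one] at h
  have h4 : ((n : ℚ_[p]) + 1) = ((n + 1 : ℕ) : ℚ_[p]) := by push_cast; ring
  rw [norm_div, norm_mul, norm_pow, norm_neg, norm_one, one_pow, one_mul, norm_pow, h4]
  have h1 := natCast_norm (p := p) (n + 1) (by omega)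
  have hpos : 0 < ‖((n + 1 : ℕ) : ℚ_[p])‖ := by
    rw [norm_pos_iff]
    exact_mod_cast (by omega : n + 1 ≠ 0)
  rw [div_le_iff₀ hpos, one_mul]
  have h2 : ‖z‖ ^ (n + 1) * ((n + 1 : ℕ) : ℝ) ≤ 1 := by
    have h3 : ((n + 1 : ℕ) : ℝ) ≤ (p : ℝ) ^ (n + 1) := by
      exact_mod_cast (Nat.lt_pow_self hp2 (n := n + 1)).le
    calc ‖z‖ ^ (n + 1) * ((n + 1 : ℕ) : ℝ) ≤ ((p : ℝ)⁻¹) ^ (n + 1) * (p : ℝ) ^ (n + 1) :=
          mul_le_mul (pow_le_pow_left₀ (norm_nonneg _) hz1 _) h3 (Nat.cast_nonneg _) (by positivity)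
      _ = 1 := by rw [← mul_pow, inv_mul_cancel₀ hp0.ne', one_pow]
  calc ‖z‖ ^ (n + 1) = ‖z‖ ^ (n + 1) * 1 := (mul_one _).symm
    _ ≤ ‖z‖ ^ (n + 1) * (‖((n + 1 : ℕ) : ℚ_[p])‖ * ((n + 1 : ℕ) : ℝ)) :=
        mul_le_mul_of_nonneg_left h1 (pow_nonneg (norm_nonneg _) _)
    _ = (‖z‖ ^ (n + 1) * ((n + 1 : ℕ) : ℝ)) * ‖((n + 1 : ℕ) : ℚ_[p])‖ := by ring
    _ ≤ 1 * ‖((n + 1 : ℕ) : ℚ_[p])‖ := mul_le_mul_of_nonneg_right h2 (norm_nonneg _)
    _ = _ := one_mul _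

variable {L : ℂ_[p] → ℂ_[p]} (hL : IsIwasawaLog p L)

include hL

lemma log_one_add {z : ℚ_[p]} (hz : ‖z‖ < 1) : L (algebraMap ℚ_[p] ℂ_[p] (1 + z)) ∈ (ii (p := p)).range := by
  have hz' : ‖algebraMap ℚ_[p] ℂ_[p] z‖ < 1 := by rwa [norm_algebraMap']
  have h := (hL.ser _ hz').tendsto_sum_nat
  rw [map_add, map_one]
  refine ii_closed.mem_of_tendsto h (Eventually.of_forall fun N => ?_)
  refine Subring.sum_mem _ fun n _ => ?_
  have e : (-1 : ℂ_[p]) ^ n * (algebraMap ℚ_[p] ℂ_[p] z) ^ (n + 1) / ((n : ℂ_[p]) + 1) =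
      algebraMap ℚ_[p] ℂ_[p] ((-1 : ℚ_[p]) ^ n * z ^ (n + 1) / ((n : ℚ_[p]) + 1)) := by
    rw [map_div₀, map_mul, map_pow, map_pow, map_neg, map_one, map_add, map_natCast, map_one]
  rw [e]
  exact mem_of_norm (term_norm hz n)

lemma log_unit (u : ℤ_[p]ˣ) : L (ii (u : ℤ_[p])) ∈ (ii (p := p)).range := by
  obtain ⟨w, hw⟩ : ∃ w : ℤ_[p], w = (u : ℤ_[p]) ^ (p - 1) - 1 := ⟨_, rfl⟩
  have hw1 : ‖w‖ < 1 := by
    rw [← PadicInt.mem_nonunits, ← IsLocalRing.mem_maximalIdeal, ← PadicInt.ker_toZMod,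
      RingHom.mem_ker, hw, map_sub, map_pow, map_one]
    have h1 : PadicInt.toZMod (u : ℤ_[p]) ≠ 0 := by
      intro h0
      have h2 : IsUnit (PadicInt.toZMod (u : ℤ_[p])) := u.isUnit.map _
      rw [h0] at h2
      exact not_isUnit_zero h2
    rw [ZMod.pow_card_sub_one_eq_one h1, sub_self]
  have h1 : L (algebraMap ℚ_[p] ℂ_[p] (1 + (w : ℚ_[p]))) ∈ (ii (p := p)).range := log_one_add hL hw1
  have e : algebraMap ℚ_[p] ℂ_[p] (1 + (w : ℚ_[p])) = (ii (u : ℤ_[p])) ^ (p - 1) := by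
    rw [← map_pow, ii_apply]
    congr 1
    rw [hw]
    push_cast
    ring
  have hu0 : ii (u : ℤ_[p]) ≠ 0 := (u.isUnit.map ii).ne_zero
  rw [e, Pool.Agent.W289.SL.IsIwasawaLog.pow hL hu0] at h1
  obtain ⟨r, hr⟩ := h1
  have hun : IsUnit (1 - (p : ℤ_[p])) := by
    apply IsLocalRing.isUnit_one_sub_self_of_mem_nonunits
    rw [PadicInt.mem_nonunits]
    exact PadicInt.norm_natCast_lt_one_iff.2 dvd_rfl
  obtain ⟨v, hv⟩ := hun
  refine ⟨-(((v⁻¹ : ℤ_[p]ˣ) : ℤ_[p]) * r), ?_⟩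
  have h2 : ((p - 1 : ℕ) : ℂ_[p]) = -(ii (v : ℤ_[p])) := by
    rw [hv, map_sub, map_one, map_natCast, Nat.cast_sub hp.out.one_le, Nat.cast_one]
    ring
  rw [h2] at hr
  rw [map_neg, map_mul, hr]
  have h3 : ii ((v⁻¹ : ℤ_[p]ˣ) : ℤ_[p]) * ii (v : ℤ_[p]) = 1 := by
    rw [← map_mul, ← Units.val_mul, inv_mul_cancel, Units.val_one, map_one]
  calc -(ii ((v⁻¹ : ℤ_[p]ˣ) : ℤ_[p]) * (-(ii (v : ℤ_[p])) * L (ii (u : ℤ_[p])))) =
      (ii ((v⁻¹ : ℤ_[p]ˣ) : ℤ_[p]) * ii (v : ℤ_[p])) * L (ii (u : ℤ_[p])) := by ring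
    _ = _ := by rw [h3, one_mul]

lemma log_zpow (k : ℤ) : L ((p : ℂ_[p]) ^ k) = 0 := by
  have hp0 : (p : ℂ_[p]) ≠ 0 := by exact_mod_cast hp.out.ne_zero
  have h1 : ∀ n : ℕ, L ((p : ℂ_[p]) ^ n) = 0 := fun n => by
    rw [Pool.Agent.W289.SL.IsIwasawaLog.pow hL hp0, hL.prime, mul_zero]
  rcases Int.eq_nat_or_neg k with ⟨n, rfl | rfl⟩
  · rw [zpow_natCast]
    exact h1 n
  · rw [zpow_neg, zpow_natCast, Pool.Agent.W289.SL.IsIwasawaLog.inv hL (pow_ne_zero _ hp0), h1, neg_zero]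

lemma log_rat {x : ℚ_[p]} (hx : x ≠ 0) : L (algebraMap ℚ_[p] ℂ_[p] x) ∈ (ii (p := p)).range := by
  have hp0 : (p : ℂ_[p]) ≠ 0 := by exact_mod_cast hp.out.ne_zero
  have hp0' : (p : ℚ_[p]) ≠ 0 := by exact_mod_cast hp.out.ne_zero
  have hpr : (p : ℝ) ≠ 0 := by exact_mod_cast hp.out.ne_zero
  obtain ⟨k, hk⟩ : ∃ k : ℤ, k = x.valuation := ⟨_, rfl⟩
  have hn := Padic.norm_eq_zpow_neg_valuation hx
  rw [← hk] at hn
  have hu : ‖x * (p : ℚ_[p]) ^ (-k)‖ = 1 := by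
    rw [norm_mul, hn, norm_zpow, Padic.norm_p, inv_zpow, ← zpow_neg, neg_neg, ← zpow_add₀ hpr, neg_add_cancel,
      zpow_zero]
  obtain ⟨u, hu'⟩ : ∃ u : ℤ_[p]ˣ, ((u : ℤ_[p]) : ℚ_[p]) = x * (p : ℚ_[p]) ^ (-k) :=
    ⟨PadicInt.mkUnits hu, rfl⟩
  have e : algebraMap ℚ_[p] ℂ_[p] x = ii (u : ℤ_[p]) * (p : ℂ_[p]) ^ k := by
    rw [ii_apply, hu', map_mul, map_zpow₀, map_natCast, mul_assoc, ← zpow_add₀ hp0, neg_add_cancel, zpow_zero, mul_one]
  have hu0 : ii (u : ℤ_[p]) ≠ 0 := (u.isUnit.map ii).ne_zero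
  rw [e, hL.mul _ _ hu0 (zpow_ne_zero _ hp0), log_zpow hL, add_zero]
  exact log_unit hL u

end Log

section Gal

variable {p : ℕ} [hp : Fact p.Prime] {K : Type} [Field K] [NumberField K]

lemma aut_norm (g : PadicAlgCl p ≃ₐ[ℚ_[p]] PadicAlgCl p) (y : PadicAlgCl p) : ‖g y‖ = ‖y‖ :=
  (spectralNorm_eq_of_equiv g y).symm

/-- composition with the inclusion -/
noncomputable def up (s : K →+* PadicAlgCl p) : K →+* ℂ_[p] := (algebraMap (PadicAlgCl p) ℂ_[p]).comp s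

lemma up_bij : Function.Bijective (up (p := p) (K := K)) := by
  refine (Fintype.bijective_iff_injective_and_card _).2 ⟨?_, ?_⟩
  · intro s t h
    ext x
    have h1 := RingHom.congr_fun h x
    exact (algebraMap (PadicAlgCl p) ℂ_[p]).injective h1
  · rw [NumberField.Embeddings.card, NumberField.Embeddings.card]

lemma up_norm (s : K →+* PadicAlgCl p) (x : K) : ‖up s x‖ = ‖s x‖ := PadicComplex.norm_extends p (s x)

lemma em_aut (P : HeightOneSpectrum (𝓞 K)) (g : PadicAlgCl p ≃ₐ[ℚ_[p]] PadicAlgCl p) (s : K →+* PadicAlgCl p) :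
    Em P (up ((g : PadicAlgCl p →+* PadicAlgCl p).comp s)) ↔ Em P (up s) := by
  unfold Em
  refine forall_congr' fun x => ?_
  rw [up_norm, up_norm]
  show (_ ↔ ‖g (s (x : K))‖ < 1) ↔ _
  rw [aut_norm]

open Classical in
/-- the local norm -/
noncomputable def zz (P : HeightOneSpectrum (𝓞 K)) (x : K) : PadicAlgCl p :=
  ∏ s ∈ (Finset.univ : Finset (K →+* PadicAlgCl p)).filter (fun s => Em P (up s)), s x

lemma zz_ne (P : HeightOneSpectrum (𝓞 K)) {x : K} (hx : x ≠ 0) : zz (p := p) P x ≠ 0 := by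
  classical
  unfold zz
  exact Finset.prod_ne_zero_iff.2 fun s _ => (map_ne_zero s).2 hx

lemma zz_aut (P : HeightOneSpectrum (𝓞 K)) (x : K) (g : PadicAlgCl p ≃ₐ[ℚ_[p]] PadicAlgCl p) :
    g (zz (p := p) P x) = zz P x := by
  classical
  unfold zz
  rw [map_prod]
  refine Finset.prod_bij' (i := fun s _ => (g : PadicAlgCl p →+* PadicAlgCl p).comp s)
    (j := fun s _ => (g.symm : PadicAlgCl p →+* PadicAlgCl p).comp s) ?_ ?_ ?_ ?_ ?_
  · intro s hs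
    rw [Finset.mem_filter] at hs ⊢
    exact ⟨Finset.mem_univ _, (em_aut P g s).2 hs.2⟩
  · intro s hs
    rw [Finset.mem_filter] at hs ⊢
    exact ⟨Finset.mem_univ _, (em_aut P g.symm s).2 hs.2⟩
  · intro s _
    ext y
    show g.symm (g (s y)) = s y
    rw [AlgEquiv.symm_apply_apply]
  · intro s _
    ext y
    show g (g.symm (s y)) = s y
    rw [AlgEquiv.apply_symm_apply]
  · intro s _
    rfl

lemma zz_rat (P : HeightOneSpectrum (𝓞 K)) (x : K) : ∃ r : ℚ_[p], algebraMap ℚ_[p] (PadicAlgCl p) r = zz P x :=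
  (InfiniteGalois.mem_range_algebraMap_iff_fixed (k := ℚ_[p]) (K := PadicAlgCl p) (zz P x)).2 fun g => zz_aut P x g

lemma log_prod {L : ℂ_[p] → ℂ_[p]} (hL : IsIwasawaLog p L) {ι : Type*} (A : Finset ι) (f : ι → ℂ_[p])
    (hf : ∀ i ∈ A, f i ≠ 0) : L (∏ i ∈ A, f i) = ∑ i ∈ A, L (f i) := by
  classical
  induction A using Finset.induction_on with
  | empty =>
    rw [Finset.prod_empty, Finset.sum_empty]
    exact Pool.Agent.W289.SL.IsIwasawaLog.one hL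
  | insert a A ha ih =>
    rw [Finset.prod_insert ha, Finset.sum_insert ha, hL.mul _ _ (hf a (Finset.mem_insert_self _ _))
      (Finset.prod_ne_zero_iff.2 fun i hi => hf i (Finset.mem_insert_of_mem hi)),
      ih fun i hi => hf i (Finset.mem_insert_of_mem hi)]

lemma lam_eq {L : ℂ_[p] → ℂ_[p]} (hL : IsIwasawaLog p L) (P : HeightOneSpectrum (𝓞 K)) {x : K} (hx : x ≠ 0) :
    lam L P x = L (algebraMap (PadicAlgCl p) ℂ_[p] (zz P x)) := by
  classical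
  have h1 : algebraMap (PadicAlgCl p) ℂ_[p] (zz P x) =
      ∏ s ∈ (Finset.univ : Finset (K →+* PadicAlgCl p)).filter (fun s => Em P (up s)), up s x := by
    unfold zz
    rw [map_prod]
    rfl
  rw [h1, log_prod hL _ _ fun s _ => (map_ne_zero _).2 hx, Finset.sum_filter]
  unfold lam
  exact (Function.Bijective.sum_comp up_bij (fun σ : K →+* ℂ_[p] => if Em P σ then L (σ x) else 0)).symm

/-- Job GQ. -/
theorem gq : S_GQ := by
  intro p _ _ L hL K _ _ P _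
  constructor
  · intro x y hx hy
    unfold lam
    rw [← Finset.sum_add_distrib]
    refine Finset.sum_congr rfl fun σ _ => ?_
    by_cases h : Em P σ
    · rw [if_pos h, if_pos h, if_pos h, map_mul, hL.mul _ _ ((map_ne_zero _).2 hx) ((map_ne_zero _).2 hy)]
    · rw [if_neg h, if_neg h, if_neg h, add_zero]
  · intro x hx
    obtain ⟨r, hr⟩ := zz_rat (p := p) P x
    have hr0 : r ≠ 0 := by
      rintro rfl
      rw [map_zero] at hr
      exact zz_ne P hx hr.symm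
    obtain ⟨s, hs⟩ := log_rat hL hr0
    refine ⟨s, ?_⟩
    rw [lam_eq hL P hx, ← hr]
    exact hs.symm

end Gal

end Pool.Agent.Q176.GK.GQ
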